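import Pool.Agent.Q169.ZD.Stm2

/-!
# Semidirect products of Coxeter groups are extended Coxeter groups
-/

set_option autoImplicit false

namespace Pool.Agent.Q31.ZD

open Pool.Agent.Q169.ZD Q27.Cox

section

variable {B : Type} {M : CoxeterMatrix B} {W : Type} [Group W] (cs : CoxeterSystem M W)
  {H : Type} [Group H] [MulAction H B] (φ : H →* MulAut W)

theorem wordProd_map (hφ : ∀ h b, φ h (cs.simple b) = cs.simple (h • b)) (h : H) (ω : List B) :
    φ h (cs.wordProd ω) = cs.wordProd (ω.map (fun b => h • b)) := by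
  induction ω with
  | nil => simp
  | cons b ω ih => rw [cs.wordProd_cons, map_mul, hφ, ih, List.map_cons, cs.wordProd_cons]

theorem length_le (hφ : ∀ h b, φ h (cs.simple b) = cs.simple (h • b)) (h : H) (w : W) :
    cs.length (φ h w) ≤ cs.length w := by
  obtain ⟨ω, hω, rfl⟩ := cs.exists_isReduced w
  rw [wordProd_map cs φ hφ, hω.eq]
  refine (cs.length_wordProd_le _).trans ?_
  rw [List.length_map]

theorem length_eq (hφ : ∀ h b, φ h (cs.simple b) = cs.simple (h • b)) (h : H) (w : W) :
    cs.length (φ h w) = cs.length w := by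
  apply le_antisymm (length_le cs φ hφ h w)
  have h1 := length_le cs φ hφ h⁻¹ (φ h w)
  rwa [← MulAut.mul_apply, ← map_mul, inv_mul_cancel, map_one, MulAut.one_apply] at h1

/-- the embedding of `W` -/
def emb : W →* W ⋊[φ] H := SemidirectProduct.inl

theorem emb_left (w : W) : (emb φ w).left = w := rfl
theorem emb_right (w : W) : (emb φ w).right = 1 := rfl

theorem emb_mul_left (w : W) (g : W ⋊[φ] H) : (emb φ w * g).left = w * g.left := by
  rw [SemidirectProduct.mul_left, emb_left, emb_right, map_one, MulAut.one_apply]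

theorem emb_mul_right (w : W) (g : W ⋊[φ] H) : (emb φ w * g).right = g.right := by
  rw [SemidirectProduct.mul_right, emb_right, one_mul]

theorem mul_emb_left (w : W) (g : W ⋊[φ] H) : (g * emb φ w).left = g.left * φ g.right w := by
  rw [SemidirectProduct.mul_left, emb_left]

theorem mul_emb_right (w : W) (g : W ⋊[φ] H) : (g * emb φ w).right = g.right := by
  rw [SemidirectProduct.mul_right, emb_right, mul_one]

/-- the index set of a set of simple reflections -/
def idx (T : Set (W ⋊[φ] H)) : Set B := {b | emb φ (cs.simple b) ∈ T}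

omit [MulAction H B] in
theorem eq_image {T : Set (W ⋊[φ] H)} (hT : T ⊆ {s | ∃ b : B, s = emb φ (cs.simple b)}) :
    T = (emb φ) '' (cs.simple '' idx cs φ T) := by
  ext s
  constructor
  · intro hs
    obtain ⟨b, rfl⟩ := hT hs
    exact ⟨_, ⟨b, hs, rfl⟩, rfl⟩
  · rintro ⟨_, ⟨b, hb, rfl⟩, rfl⟩
    exact hb

theorem closure_eq {T : Set (W ⋊[φ] H)} (hT : T ⊆ {s | ∃ b : B, s = emb φ (cs.simple b)}) :
    Subgroup.closure T = (P cs (idx cs φ T)).map (emb φ) := by
  conv_lhs => rw [eq_image cs φ hT]
  rw [P, MonoidHom.map_closure]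

end

theorem ext : S_EXT := by
  intro B M W _ cs H _ _ φ hφ
  have hS : ∀ s : W ⋊[φ] H, (∃ b : B, s = ⟨cs.simple b, 1⟩) ↔ ∃ b : B, s = emb φ (cs.simple b) :=
    fun s => Iff.rfl
  have key : ∀ (T : Set (W ⋊[φ] H)), T ⊆ {s | ∃ b : B, s = ⟨cs.simple b, 1⟩} →
      ∀ m : W ⋊[φ] H, (∀ t ∈ T, cs.length m.left < cs.length (t * m).left) ↔
        m.left ∈ L cs (idx cs φ T) := by
    intro T hT m
    constructor
    · intro h j hj
      have := h _ hj
      rwa [emb_mul_left] at this
    · intro h t ht
      obtain ⟨b, rfl⟩ := hT ht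
      have := h b ht
      change _ < cs.length (emb φ (cs.simple b) * m).left
      rwa [emb_mul_left]
  refine ⟨{
    S := {s | ∃ b : B, s = ⟨cs.simple b, 1⟩}
    len := fun g => cs.length g.left
    sq := ?_
    len_one := ?_
    len_inv := ?_
    len_mul := ?_
    len_smul := ?_
    len_muls := ?_
    conj := ?_
    desc := ?_
    lift := ?_
    par_decomp := ?_
    par_len := ?_
    par_desc := ?_ }, rfl, fun g => rfl⟩
  · rintro s ⟨b, rfl⟩
    change emb φ (cs.simple b) * emb φ (cs.simple b) = 1
    rw [← map_mul, cs.simple_mul_simple_self, map_one]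
  · change cs.length (1 : W) = 0
    exact cs.length_one
  · intro g
    rw [SemidirectProduct.inv_left, length_eq cs φ hφ, cs.length_inv]
  · intro g h
    rw [SemidirectProduct.mul_left]
    refine (cs.length_mul_le _ _).trans ?_
    rw [length_eq cs φ hφ]
  · rintro s ⟨b, rfl⟩ g
    change cs.length (emb φ (cs.simple b) * g).left = _ ∨ cs.length (emb φ (cs.simple b) * g).left + 1 = _
    rw [emb_mul_left]
    exact cs.length_simple_mul _ _
  · rintro s ⟨b, rfl⟩ g
    change cs.length (g * emb φ (cs.simple b)).left = _ ∨ cs.length (g * emb φ (cs.simple b)).left + 1 = _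
    rw [mul_emb_left, hφ]
    exact cs.length_mul_simple _ _
  · rintro h hh s ⟨b, rfl⟩
    have h1 : h.left = 1 := cs.length_eq_zero_iff.1 hh
    refine ⟨h.right • b, ?_⟩
    change h * emb φ (cs.simple b) * h⁻¹ = emb φ (cs.simple (h.right • b))
    rw [mul_inv_eq_iff_eq_mul]
    apply SemidirectProduct.ext
    · rw [mul_emb_left, emb_mul_left, h1, hφ, one_mul, mul_one]
    · rw [mul_emb_right, emb_mul_right]
  · intro g hg
    have h1 : g.left ≠ 1 := fun h => hg (cs.length_eq_zero_iff.2 h)
    obtain ⟨b, hb⟩ := cs.exists_rightDescent_of_ne_one h1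
    refine ⟨emb φ (cs.simple (g.right⁻¹ • b)), ⟨_, rfl⟩, ?_⟩
    rw [mul_emb_left, hφ, smul_inv_smul]
    exact hb
  · rintro s ⟨b, rfl⟩ t ⟨c, rfl⟩ g h1 h2 h3
    change cs.length g.left < cs.length (emb φ (cs.simple c) * g).left at h1
    change cs.length g.left < cs.length (g * emb φ (cs.simple b)).left at h2
    change cs.length (emb φ (cs.simple c) * g * emb φ (cs.simple b)).left <
      cs.length (emb φ (cs.simple c) * g).left at h3
    change emb φ (cs.simple c) * g = g * emb φ (cs.simple b)
    rw [emb_mul_left] at h1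
    rw [mul_emb_left, hφ] at h2
    rw [mul_emb_left, emb_mul_left, emb_mul_right, hφ] at h3
    have h4 : g.left ∈ R cs {g.right • b} := by
      intro j hj
      rw [Set.mem_singleton_iff] at hj
      rw [hj]
      exact h2
    have h5 : cs.simple c * g.left = g.left * cs.simple (g.right • b) := by
      rcases deodhar_up h4 h1 with h6 | ⟨j, hj, h6⟩
      · have := h6 _ (Set.mem_singleton _)
        omega
      · rw [Set.mem_singleton_iff] at hj
        rw [h6, hj]
    apply SemidirectProduct.ext
    · rw [emb_mul_left, mul_emb_left, hφ, h5]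
    · rw [mul_emb_right, emb_mul_right]
  · intro T hT g
    obtain ⟨y, hy, x, hx, he, hl⟩ := exists_decomp_L (cs := cs) (idx cs φ T) g.left
    refine ⟨emb φ y, ?_, ⟨x, g.right⟩, ?_, ?_⟩
    · rw [closure_eq cs φ hT]
      exact ⟨y, hy, rfl⟩
    · exact (key T hT ⟨x, g.right⟩).2 hx
    · apply SemidirectProduct.ext
      · rw [emb_mul_left, he]
      · rw [emb_mul_right]
  · intro T hT u hu m hm
    rw [closure_eq cs φ hT] at hu
    obtain ⟨y, hy, rfl⟩ := hu
    have := (key T hT m).1 hm
    rw [emb_mul_left, emb_left]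
    exact length_mul_L this hy
  · intro T hT u hu hu1
    rw [closure_eq cs φ hT] at hu
    obtain ⟨y, hy, rfl⟩ := hu
    have h1 : y ≠ 1 := fun h => hu1 (by rw [h, map_one])
    obtain ⟨b, hb⟩ := cs.exists_leftDescent_of_ne_one h1
    refine ⟨emb φ (cs.simple b), descent_mem hy hb, ?_⟩
    rw [emb_mul_left, emb_left]
    exact hb

end Pool.Agent.Q31.ZD
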